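import Mathlib

/-!
# Algebra of Poncelet triangles
-/

open ComplexConjugate

namespace Q184.Poncelet

theorem quad3 {A B C z1 z2 z3 : ℂ} (h12 : z1 ≠ z2) (h13 : z1 ≠ z3) (h23 : z2 ≠ z3)
    (h1 : A * z1 ^ 2 + B * z1 + C = 0) (h2 : A * z2 ^ 2 + B * z2 + C = 0)
    (h3 : A * z3 ^ 2 + B * z3 + C = 0) : A = 0 ∧ B = 0 ∧ C = 0 := by
  have e1 : (z1 - z2) * (A * (z1 + z2) + B) = 0 := by linear_combination h1 - h2
  have e2 : (z1 - z3) * (A * (z1 + z3) + B) = 0 := by linear_combination h1 - h3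
  have f1 := (mul_eq_zero.mp e1).resolve_left (sub_ne_zero.mpr h12)
  have f2 := (mul_eq_zero.mp e2).resolve_left (sub_ne_zero.mpr h13)
  have e3 : (z2 - z3) * A = 0 := by linear_combination f1 - f2
  have hA := (mul_eq_zero.mp e3).resolve_left (sub_ne_zero.mpr h23)
  subst hA
  have hB : B = 0 := by simpa using f1
  subst hB
  exact ⟨rfl, rfl, by simpa using h1⟩

/-- A quartic with three given distinct roots. -/
theorem quartic3 {q4 q3 q2 q1 q0 z1 z2 z3 e1 e2 e3 : ℂ} (h12 : z1 ≠ z2) (h13 : z1 ≠ z3)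
    (h23 : z2 ≠ z3) (he1 : e1 = z1 + z2 + z3) (he2 : e2 = z1 * z2 + z1 * z3 + z2 * z3)
    (he3 : e3 = z1 * z2 * z3)
    (h1 : q4 * z1 ^ 4 + q3 * z1 ^ 3 + q2 * z1 ^ 2 + q1 * z1 + q0 = 0)
    (h2 : q4 * z2 ^ 4 + q3 * z2 ^ 3 + q2 * z2 ^ 2 + q1 * z2 + q0 = 0)
    (h3 : q4 * z3 ^ 4 + q3 * z3 ^ 3 + q2 * z3 ^ 2 + q1 * z3 + q0 = 0) :
    q2 = q4 * e2 - (q3 + q4 * e1) * e1 ∧ q1 = (q3 + q4 * e1) * e2 - q4 * e3 ∧
      q0 = -((q3 + q4 * e1) * e3) := by
  have key : ∀ z, z ^ 3 - e1 * z ^ 2 + e2 * z - e3 = 0 →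
      q4 * z ^ 4 + q3 * z ^ 3 + q2 * z ^ 2 + q1 * z + q0 = 0 →
      (q2 - (q4 * e2 - (q3 + q4 * e1) * e1)) * z ^ 2 +
        (q1 - ((q3 + q4 * e1) * e2 - q4 * e3)) * z + (q0 + (q3 + q4 * e1) * e3) = 0 := by
    intro z hz hq
    linear_combination hq - (q4 * z + (q3 + q4 * e1)) * hz
  have r1 : z1 ^ 3 - e1 * z1 ^ 2 + e2 * z1 - e3 = 0 := by rw [he1, he2, he3]; ring
  have r2 : z2 ^ 3 - e1 * z2 ^ 2 + e2 * z2 - e3 = 0 := by rw [he1, he2, he3]; ring
  have r3 : z3 ^ 3 - e1 * z3 ^ 2 + e2 * z3 - e3 = 0 := by rw [he1, he2, he3]; ring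
  obtain ⟨a1, a2, a3⟩ := quad3 h12 h13 h23 (key z1 r1 h1) (key z2 r2 h2) (key z3 r3 h3)
  exact ⟨by linear_combination a1, by linear_combination a2, by linear_combination a3⟩

theorem conj_eq_inv_of_norm {z : ℂ} (hz : ‖z‖ = 1) : conj z = z⁻¹ := by
  rw [Complex.inv_def, Complex.normSq_eq_norm_sq, hz]
  simp

theorem mul_conj_of_norm {z : ℂ} (hz : ‖z‖ = 1) : z * conj z = 1 := by
  rw [Complex.mul_conj, Complex.normSq_eq_norm_sq, hz]
  simp

theorem ne_zero_of_norm {z : ℂ} (hz : ‖z‖ = 1) : z ≠ 0 := by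
  intro h
  rw [h, norm_zero] at hz
  exact zero_ne_one hz

/-- The tangency relation of the chord `z1 z2` of the unit circle with the ellipse
`{c0 + μ u + ν ū}`. -/
def Tan (c0 μ ν z1 z2 : ℂ) : Prop :=
  (z1 + z2 - c0 - z1 * z2 * conj c0) ^ 2 =
    4 * (μ + z1 * z2 * conj ν) * (ν + z1 * z2 * conj μ)

/-- uniqueness of the intersection point gives the tangency relation -/
theorem tan_of_unique {c0 μ ν z1 z2 : ℂ} (hμν : ‖μ‖ ≠ ‖ν‖) (h1 : ‖z1‖ = 1) (h2 : ‖z2‖ = 1)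
    {u0 : ℂ} (hu0 : ‖u0‖ = 1)
    (hline : (c0 + μ * u0 + ν * conj u0) + z1 * z2 * conj (c0 + μ * u0 + ν * conj u0) = z1 + z2)
    (huniq : ∀ u : ℂ, ‖u‖ = 1 →
      (c0 + μ * u + ν * conj u) + z1 * z2 * conj (c0 + μ * u + ν * conj u) = z1 + z2 →
      u = u0) : Tan c0 μ ν z1 z2 := by
  set p := z1 * z2 with hp
  have hpn : ‖p‖ = 1 := by rw [hp, norm_mul, h1, h2, one_mul]
  set m := μ + p * conj ν with hm
  set m' := ν + p * conj μ with hm'
  set D := c0 + p * conj c0 - (z1 + z2) with hD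
  have hmm : m' = p * conj m := by
    rw [hm, hm', map_add, map_mul, Complex.conj_conj]
    have := mul_conj_of_norm hpn
    linear_combination -ν * this
  have hm0 : m ≠ 0 := by
    intro h0
    apply hμν
    have : μ = -(p * conj ν) := by
      rw [hm] at h0
      exact eq_neg_of_add_eq_zero_left h0
    rw [this, norm_neg, norm_mul, hpn, one_mul, Complex.norm_conj]
  have hnm : ‖m'‖ = ‖m‖ := by rw [hmm, norm_mul, hpn, one_mul, Complex.norm_conj]
  have eq_iff : ∀ u : ℂ, ‖u‖ = 1 →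
      ((c0 + μ * u + ν * conj u) + p * conj (c0 + μ * u + ν * conj u) = z1 + z2 ↔
        m * u ^ 2 + D * u + m' = 0) := by
    intro u hu
    have huu := mul_conj_of_norm hu
    have hune := ne_zero_of_norm hu
    rw [map_add, map_add, map_mul, map_mul, Complex.conj_conj]
    constructor
    · intro h
      rw [hm, hm', hD]
      linear_combination u * h - ν * huu - p * conj μ * huu
    · intro h
      rw [hm, hm', hD] at h
      have h3 : u * ((c0 + μ * u + ν * conj u) + p * (conj c0 + conj μ * conj u + conj ν * u) -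
          (z1 + z2)) = 0 := by
        linear_combination h + ν * huu + p * conj μ * huu
      have h4 := (mul_eq_zero.mp h3).resolve_left hune
      linear_combination h4
  have hq0 := (eq_iff u0 hu0).mp hline
  have hu0ne := ne_zero_of_norm hu0
  -- the other root
  set u1 := m' / (m * u0) with hu1
  have hu1n : ‖u1‖ = 1 := by
    rw [hu1, norm_div, norm_mul, hu0, mul_one, hnm]
    exact div_self (norm_ne_zero_iff.mpr hm0)
  have hm1 : m' = m * u0 * u1 := by
    rw [hu1]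
    field_simp
  have hD1 : D = -(m * (u0 + u1)) := by
    have h5 : u0 * (m * (u0 + u1) + D) = 0 := by
      rw [hm1] at hq0
      linear_combination hq0
    have h6 := (mul_eq_zero.mp h5).resolve_left hu0ne
    linear_combination h6
  have hroot : m * u1 ^ 2 + D * u1 + m' = 0 := by
    rw [hD1, hm1]
    ring
  have h7 : u1 = u0 := huniq u1 hu1n ((eq_iff u1 hu1n).mpr hroot)
  rw [h7] at hm1 hD1
  unfold Tan
  have h8 : z1 + z2 - c0 - p * conj c0 = -D := by rw [hD]; ring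
  rw [h8, ← hm, ← hm', hm1, hD1]
  ring

/-- The elementary symmetric functions of a Poncelet triangle. -/
theorem symm_of_tan {c0 μ ν z1 z2 z3 : ℂ} (h1 : ‖z1‖ = 1) (h2 : ‖z2‖ = 1) (h3 : ‖z3‖ = 1)
    (h12 : z1 ≠ z2) (h13 : z1 ≠ z3) (h23 : z2 ≠ z3) (t12 : Tan c0 μ ν z1 z2)
    (t13 : Tan c0 μ ν z1 z3) (t23 : Tan c0 μ ν z2 z3) :
    z1 + z2 + z3 = 2 * c0 + conj (c0 ^ 2 - 4 * μ * ν) * (z1 * z2 * z3) ∧
      z1 * z2 + z1 * z3 + z2 * z3 = (c0 ^ 2 - 4 * μ * ν) + 2 * conj c0 * (z1 * z2 * z3) := by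
  set e1 := z1 + z2 + z3 with he1
  set e2 := z1 * z2 + z1 * z3 + z2 * z3 with he2
  set L := z1 * z2 * z3 with hL
  have hz1 := ne_zero_of_norm h1
  have hz2 := ne_zero_of_norm h2
  have hz3 := ne_zero_of_norm h3
  have hL0 : L ≠ 0 := mul_ne_zero (mul_ne_zero hz1 hz2) hz3
  -- the quartic
  have quart : ∀ z s p : ℂ, s = e1 - z → p * z = L →
      (s - c0 - p * conj c0) ^ 2 = 4 * (μ + p * conj ν) * (ν + p * conj μ) →
      1 * z ^ 4 + (-2 * e1 + 2 * c0) * z ^ 3 +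
        (e1 ^ 2 - 2 * c0 * e1 + 2 * conj c0 * L + (c0 ^ 2 - 4 * μ * ν)) * z ^ 2 +
        (-(2 * conj c0 * e1 * L) + (2 * c0 * conj c0 - 4 * (μ * conj μ + ν * conj ν)) * L) * z +
        conj (c0 ^ 2 - 4 * μ * ν) * L ^ 2 = 0 := by
    intro z s p hs hp ht
    rw [map_sub, map_pow, map_mul, map_mul, map_ofNat, hs] at *
    rw [← hp]
    linear_combination z ^ 2 * ht
  have q1 := quart z3 (z1 + z2) (z1 * z2) (by rw [he1]; ring) (by rw [hL]) t12
  have q2 := quart z2 (z1 + z3) (z1 * z3) (by rw [he1]; ring) (by rw [hL]; ring) t13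
  have q3 := quart z1 (z2 + z3) (z2 * z3) (by rw [he1]; ring) (by rw [hL]; ring) t23
  obtain ⟨a1, a2, a3⟩ := quartic3 h12 h13 h23 he1 he2 hL q3 q2 q1
  have hρ : -2 * e1 + 2 * c0 + 1 * e1 = -(conj (c0 ^ 2 - 4 * μ * ν) * L) := by
    have h4 : L * ((-2 * e1 + 2 * c0 + 1 * e1) + conj (c0 ^ 2 - 4 * μ * ν) * L) = 0 := by
      linear_combination a3
    have h5 := (mul_eq_zero.mp h4).resolve_left hL0
    linear_combination h5
  constructor
  · linear_combination -hρ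
  · linear_combination (-1 : ℂ) * a1 + e1 * hρ + e1 * (-1) * hρ

/-- the foci lie in the unit disc -/
theorem foci_norm_lt {c0 μ ν : ℂ} (hin : ∀ u : ℂ, ‖u‖ = 1 → ‖c0 + μ * u + ν * conj u‖ < 1) :
    ‖c0 ^ 2 - 4 * μ * ν‖ < 1 := by
  obtain ⟨s, hs⟩ := IsAlgClosed.exists_pow_nat_eq (μ * ν) (n := 2) (by norm_num)
  have hfac : c0 ^ 2 - 4 * μ * ν = (c0 - 2 * s) * (c0 + 2 * s) := by
    linear_combination 4 * hs
  have hseg : ∀ v : ℂ, ∀ t : ℝ, |t| ≤ 1 → ‖c0 + v‖ < 1 → ‖c0 - v‖ < 1 →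
      ‖c0 + t * v‖ < 1 := by
    intro v t ht h1 h2
    obtain ⟨ht1, ht2⟩ := abs_le.mp ht
    have h3 : c0 + t * v = (((1 + t) / 2 : ℝ) : ℂ) * (c0 + v) + (((1 - t) / 2 : ℝ) : ℂ) * (c0 - v) := by
      push_cast
      ring
    rw [h3]
    refine lt_of_le_of_lt (norm_add_le _ _) ?_
    rw [norm_mul, norm_mul, Complex.norm_real, Complex.norm_real, Real.norm_of_nonneg (by linarith),
      Real.norm_of_nonneg (by linarith)]
    rcases (show (0 : ℝ) ≤ 1 + t by linarith).lt_or_eq with h | h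
    · nlinarith
    · have ht' : t = -1 := by linarith
      rw [ht']
      norm_num
      exact h2
  -- it suffices to bound the two factors
  have hmain : ‖c0 + 2 * s‖ < 1 ∧ ‖c0 - 2 * s‖ < 1 := by
    by_cases hs0 : s = 0
    · have h1 := hin 1 (by simp)
      have h2 := hin (-1) (by simp)
      have h3 : ‖c0‖ < 1 := by
        have := hseg (μ + ν) 0 (by simp) (by simpa [add_assoc] using h1)
          (by
            have e : c0 - (μ + ν) = c0 + μ * (-1) + ν * conj (-1) := by simp; ring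
            rw [e]
            exact h2)
        simpa using this
      rw [hs0]
      simpa using h3
    · have hμν0 : μ * ν ≠ 0 := by
        rw [← hs]
        exact pow_ne_zero 2 hs0
      have hμ0 : μ ≠ 0 := left_ne_zero_of_mul hμν0
      have hν0 : ν ≠ 0 := right_ne_zero_of_mul hμν0
      have hsn : ‖s‖ ^ 2 = ‖μ‖ * ‖ν‖ := by rw [← norm_pow, hs, norm_mul]
      have hsp : 0 < ‖s‖ := norm_pos_iff.mpr hs0
      have hμp : 0 < ‖μ‖ := norm_pos_iff.mpr hμ0
      have hνp : 0 < ‖ν‖ := norm_pos_iff.mpr hν0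
      set u : ℂ := s * ‖μ‖ / (μ * ‖s‖) with hu
      have hun : ‖u‖ = 1 := by
        rw [hu, norm_div, norm_mul, norm_mul, Complex.norm_real, Complex.norm_real, norm_norm,
          norm_norm]
        field_simp
      have hsC : (‖s‖ : ℂ) ≠ 0 := by exact_mod_cast hsp.ne'
      have hμC : (‖μ‖ : ℂ) ≠ 0 := by exact_mod_cast hμp.ne'
      have e1 : μ * u = s * (‖μ‖ / ‖s‖) := by
        rw [hu]
        field_simp
      have e2 : ν * conj u = s * (‖ν‖ / ‖s‖) := by
        have h4 : conj u = u⁻¹ := conj_eq_inv_of_norm hun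
        rw [h4, hu, inv_div]
        have h5 : ((‖s‖ : ℂ)) ^ 2 = ‖μ‖ * ‖ν‖ := by exact_mod_cast hsn
        field_simp
        linear_combination (-(‖μ‖ : ℂ) * ‖ν‖) * hs + μ * ν * h5
      set r : ℝ := (‖μ‖ + ‖ν‖) / ‖s‖ with hr
      have e3 : μ * u + ν * conj u = (r : ℂ) * s := by
        rw [e1, e2, hr]
        push_cast
        field_simp
      have hr2 : 2 ≤ r := by
        rw [hr, le_div_iff₀ hsp]
        nlinarith [sq_nonneg (‖μ‖ - ‖ν‖), sq_nonneg (‖μ‖ + ‖ν‖ - 2 * ‖s‖)]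
      have hr0 : 0 < r := by linarith
      have p1 : ‖c0 + (r : ℂ) * s‖ < 1 := by
        rw [← e3, ← add_assoc]
        exact hin u hun
      have p2 : ‖c0 - (r : ℂ) * s‖ < 1 := by
        have := hin (-u) (by rw [norm_neg]; exact hun)
        have e : c0 + μ * (-u) + ν * conj (-u) = c0 - (r : ℂ) * s := by
          rw [← e3, map_neg]
          ring
        rwa [e] at this
      have hrC : (r : ℂ) ≠ 0 := by exact_mod_cast hr0.ne'
      constructor
      · have := hseg ((r : ℂ) * s) (2 / r) (by rw [abs_of_pos (by positivity)]; exact (div_le_one hr0).mpr hr2) p1 p2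
        have e : c0 + ((2 / r : ℝ) : ℂ) * ((r : ℂ) * s) = c0 + 2 * s := by
          push_cast
          field_simp
        rwa [e] at this
      · have := hseg ((r : ℂ) * s) (-(2 / r)) (by rw [abs_neg, abs_of_pos (by positivity)]; exact (div_le_one hr0).mpr hr2) p1 p2
        have e : c0 + ((-(2 / r) : ℝ) : ℂ) * ((r : ℂ) * s) = c0 - 2 * s := by
          push_cast
          field_simp
          ring
        rwa [e] at this
  rw [hfac, norm_mul]
  have h1 := hmain.1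
  have h2 := hmain.2
  have h3 := norm_nonneg (c0 + 2 * s)
  have h4 := norm_nonneg (c0 - 2 * s)
  nlinarith

end Q184.Poncelet
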