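import Mathlib
import Pool.Agent.Q184.Poncelet.Core

/-!
# Circumcircles of Poncelet triangles
-/

open ComplexConjugate

namespace Q184.Poncelet

theorem circle_eq {a b : ℝ} {z O : ℂ} {ρ : ℝ} (hz : ‖z‖ = 1)
    (h : ‖(a : ℂ) * z + b * conj z - O‖ ^ 2 = ρ) :
    ((a : ℂ) * b) * z ^ 4 + (-(a * conj O + b * O)) * z ^ 3 +
      (a ^ 2 + b ^ 2 + O * conj O - ρ) * z ^ 2 + (-(b * conj O + a * O)) * z + a * b = 0 := by
  have hzz := mul_conj_of_norm hz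
  have h1 : ((a : ℂ) * z + b * conj z - O) * (a * conj z + b * z - conj O) = ρ := by
    have h2 : conj ((a : ℂ) * z + b * conj z - O) = a * conj z + b * z - conj O := by
      rw [map_sub, map_add, map_mul, map_mul, Complex.conj_conj, Complex.conj_ofReal,
        Complex.conj_ofReal]
    rw [← h2, Complex.mul_conj, Complex.normSq_eq_norm_sq, h]
  linear_combination z ^ 2 * h1 - (z ^ 2 * (a ^ 2 + b ^ 2) - z * (a * O + b * conj O) +
    a * b * (1 + z * conj z)) * hzz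

theorem circum_symm {a b : ℝ} {z1 z2 z3 O : ℂ} {ρ : ℝ} (n1 : ‖z1‖ = 1) (n2 : ‖z2‖ = 1)
    (n3 : ‖z3‖ = 1) (h12 : z1 ≠ z2) (h13 : z1 ≠ z3) (h23 : z2 ≠ z3)
    (h1 : ‖(a : ℂ) * z1 + b * conj z1 - O‖ ^ 2 = ρ)
    (h2 : ‖(a : ℂ) * z2 + b * conj z2 - O‖ ^ 2 = ρ)
    (h3 : ‖(a : ℂ) * z3 + b * conj z3 - O‖ ^ 2 = ρ) :
    a * conj O + b * O = a * b * (z1 + z2 + z3 + conj (z1 * z2 * z3)) ∧
    b * conj O + a * O =
      a * b * (z1 * z2 * z3 + (z1 * z2 + z1 * z3 + z2 * z3) * conj (z1 * z2 * z3)) ∧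
    a ^ 2 + b ^ 2 + O * conj O - ρ =
      a * b * (z1 * z2 + z1 * z3 + z2 * z3 + (z1 + z2 + z3) * conj (z1 * z2 * z3)) := by
  obtain ⟨a1, a2, a3⟩ := quartic3 h12 h13 h23 rfl rfl rfl (circle_eq n1 h1) (circle_eq n2 h2)
    (circle_eq n3 h3)
  have hLn : ‖z1 * z2 * z3‖ = 1 := by rw [norm_mul, norm_mul, n1, n2, n3]; norm_num
  have hL := mul_conj_of_norm hLn
  set L := z1 * z2 * z3 with hLdef
  set e1 := z1 + z2 + z3 with he1
  set e2 := z1 * z2 + z1 * z3 + z2 * z3 with he2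
  have hq3 : -(a * conj O + b * O) + a * b * e1 = -(a * b * conj L) := by
    linear_combination (conj L) * a3 - (-(a * conj O + b * O) + a * b * e1) * hL
  refine ⟨by linear_combination -hq3, ?_, ?_⟩
  · linear_combination -a2 - e2 * hq3
  · linear_combination a1 - e1 * hq3

/-- the algebraic core -/
theorem circum_alg {a b q : ℝ} {π πc c0 cc p pc L Lc O Oc e1 e2 ρ κ R Rc A Ac Y Yc : ℂ}
    (hq : q = a ^ 2 - b ^ 2) (hq0 : q ≠ 0)
    (hA : A = a - b * πc) (hAc : Ac = a - b * π) (hY : Y = a * πc - b) (hYc : Yc = a * π - b)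
    (hR : R = q * (2 * cc)) (hRc : Rc = q * (2 * c0))
    (hL : L * Lc = 1)
    (s1 : e1 = 2 * c0 + πc * L) (s2 : e2 = π + 2 * cc * L)
    (r1 : a * Oc + b * O = a * b * (e1 + Lc)) (r2 : b * Oc + a * O = a * b * (L + e2 * Lc))
    (r3 : a ^ 2 + b ^ 2 + O * Oc - ρ = a * b * (e2 + e1 * Lc))
    (hs : A * pc + Y * p = R) (hs' : Ac * p + Yc * pc = Rc)
    (hκ : κ = p * pc - (a * b / q) *
      (pc * (a * (2 * cc) - b * (2 * c0)) + p * (a * (2 * c0) - b * (2 * cc))) +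
      a * b * (π + πc) - (a ^ 2 + b ^ 2)) :
    (p - O) * (pc - Oc) - ρ = κ := by
  have hqC : (q : ℂ) ≠ 0 := by exact_mod_cast hq0
  have hqe : (q : ℂ) = a ^ 2 - b ^ 2 := by rw [hq]; push_cast; ring
  have hO : q * O = a * b * (A * L + Yc * Lc + a * (2 * cc) - b * (2 * c0)) := by
    rw [hA, hYc, hqe]
    rw [s1] at r1
    rw [s2] at r2
    linear_combination a * r2 - b * r1 + a * (a * b) * (2 * cc) * hL
  have hOc : q * Oc = a * b * (Ac * Lc + Y * L + a * (2 * c0) - b * (2 * cc)) := by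
    rw [hAc, hY, hqe]
    rw [s1] at r1
    rw [s2] at r2
    linear_combination a * r1 - b * r2 - b * (a * b) * (2 * cc) * hL
  have h3 : (q : ℂ) * ((a * b / q) *
      (pc * (a * (2 * cc) - b * (2 * c0)) + p * (a * (2 * c0) - b * (2 * cc)))) =
      a * b * (pc * (a * (2 * cc) - b * (2 * c0)) + p * (a * (2 * c0) - b * (2 * cc))) := by
    field_simp
  have h2 : (q : ℂ) * ((p - O) * (pc - Oc) - ρ) = q * κ := by
    rw [hκ]
    rw [s1, s2] at r3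
    rw [hR] at hs
    rw [hRc] at hs'
    linear_combination (-pc) * hO - p * hOc + q * r3 - a * b * L * hs - a * b * Lc * hs' + h3 +
      q * a * b * πc * hL
  exact mul_left_cancel₀ hqC h2

/-- There are a point and a constant such that the power of the point with respect to the
circumcircle is the constant. -/
theorem circum_core (a b : ℝ) (hb : 0 ≤ b) (hab : b < a) (c0 μ ν : ℂ)
    (hin : ∀ u : ℂ, ‖u‖ = 1 → ‖c0 + μ * u + ν * conj u‖ < 1) :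
    ∃ (p : ℂ) (κ : ℝ), ∀ z1 z2 z3 : ℂ, ‖z1‖ = 1 → ‖z2‖ = 1 → ‖z3‖ = 1 → z1 ≠ z2 → z1 ≠ z3 →
      z2 ≠ z3 → Tan c0 μ ν z1 z2 → Tan c0 μ ν z1 z3 → Tan c0 μ ν z2 z3 →
      ∀ (O : ℂ) (ρ : ℝ), ‖(a : ℂ) * z1 + b * conj z1 - O‖ ^ 2 = ρ →
        ‖(a : ℂ) * z2 + b * conj z2 - O‖ ^ 2 = ρ → ‖(a : ℂ) * z3 + b * conj z3 - O‖ ^ 2 = ρ →
        ‖p - O‖ ^ 2 - ρ = κ := by
  have hπ1' : ‖c0 ^ 2 - 4 * μ * ν‖ < 1 := foci_norm_lt hin
  obtain ⟨π, hπ⟩ : ∃ π : ℂ, π = c0 ^ 2 - 4 * μ * ν := ⟨_, rfl⟩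
  have hπ1 : ‖π‖ < 1 := by rw [hπ]; exact hπ1'
  obtain ⟨q, hq⟩ : ∃ q : ℝ, q = a ^ 2 - b ^ 2 := ⟨_, rfl⟩
  have hqpos : 0 < q := by rw [hq]; nlinarith
  obtain ⟨A, hA⟩ : ∃ A : ℂ, A = a - b * conj π := ⟨_, rfl⟩
  obtain ⟨Y, hY⟩ : ∃ Y : ℂ, Y = a * conj π - b := ⟨_, rfl⟩
  obtain ⟨R, hR⟩ : ∃ R : ℂ, R = q * (2 * conj c0) := ⟨_, rfl⟩
  have hAc : conj A = a - b * π := by
    rw [hA, map_sub, map_mul, Complex.conj_conj, Complex.conj_ofReal, Complex.conj_ofReal]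
  have hYc : conj Y = a * π - b := by
    rw [hY, map_sub, map_mul, Complex.conj_conj, Complex.conj_ofReal, Complex.conj_ofReal]
  have hRc : conj R = q * (2 * c0) := by
    rw [hR, map_mul, map_mul, Complex.conj_conj, Complex.conj_ofReal, map_ofNat]
  obtain ⟨d, hd⟩ : ∃ d : ℝ, d = q * (1 - ‖π‖ ^ 2) := ⟨_, rfl⟩
  have hqe : (q : ℂ) = a ^ 2 - b ^ 2 := by rw [hq]; push_cast; ring
  have hdet : A * conj A - Y * conj Y = (d : ℂ) := by
    have h1 : π * conj π = ((‖π‖ ^ 2 : ℝ) : ℂ) := by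
      rw [Complex.mul_conj, Complex.normSq_eq_norm_sq]
    rw [hAc, hYc, hA, hY, hd]
    push_cast
    push_cast at h1
    rw [hqe]
    linear_combination (b ^ 2 - a ^ 2 : ℂ) * h1
  have hd0 : d ≠ 0 := by
    rw [hd]
    have h2 : 0 < 1 - ‖π‖ ^ 2 := by nlinarith [norm_nonneg π]
    exact (mul_pos hqpos h2).ne'
  have hdC : (d : ℂ) ≠ 0 := by exact_mod_cast hd0
  obtain ⟨p, hp⟩ : ∃ p : ℂ, p = (A * conj R - conj Y * R) / d := ⟨_, rfl⟩
  have hpc : conj p = (conj A * R - Y * conj R) / d := by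
    rw [hp, map_div₀, map_sub, map_mul, map_mul, Complex.conj_conj, Complex.conj_conj,
      Complex.conj_ofReal]
  have hsolve : A * conj p + Y * p = R := by
    rw [hpc, hp]
    field_simp
    linear_combination R * hdet
  have hsolve' : conj A * p + conj Y * conj p = conj R := by
    have := congrArg conj hsolve
    rw [map_add, map_mul, map_mul, Complex.conj_conj] at this
    exact this
  obtain ⟨κ, hκ⟩ : ∃ κ : ℂ, κ = p * conj p - (a * b / q) *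
    (conj p * (a * (2 * conj c0) - b * (2 * c0)) + p * (a * (2 * c0) - b * (2 * conj c0))) +
    a * b * (π + conj π) - (a ^ 2 + b ^ 2) := ⟨_, rfl⟩
  refine ⟨p, κ.re, ?_⟩
  intro z1 z2 z3 n1 n2 n3 h12 h13 h23 t12 t13 t23 O ρ k1 k2 k3
  obtain ⟨s1, s2⟩ := symm_of_tan n1 n2 n3 h12 h13 h23 t12 t13 t23
  obtain ⟨r1, r2, r3⟩ := circum_symm n1 n2 n3 h12 h13 h23 k1 k2 k3
  have hLn : ‖z1 * z2 * z3‖ = 1 := by rw [norm_mul, norm_mul, n1, n2, n3]; norm_num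
  have hL := mul_conj_of_norm hLn
  rw [← hπ] at s1 s2
  have hfin : (((‖p - O‖ ^ 2 - ρ : ℝ)) : ℂ) = κ := by
    have h1 : ((‖p - O‖ ^ 2 : ℝ) : ℂ) = (p - O) * (conj p - conj O) := by
      rw [← map_sub, Complex.mul_conj, Complex.normSq_eq_norm_sq]
    rw [Complex.ofReal_sub, h1]
    exact circum_alg hq hqpos.ne' hA hAc hY hYc hR hRc hL s1 s2 r1 r2 r3 hsolve hsolve' hκ
  have := congrArg Complex.re hfin
  rwa [Complex.ofReal_re] at this

end Q184.Poncelet
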