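import Mathlib
import Pool.Agent.Q184.Poncelet.Core

/-!
# Ellipses in the plane `ℂ`, coordinates
-/

open ComplexConjugate

namespace Q184.Poncelet

/-- the coordinate of `w` in which the ellipse with centre `c`, axis `d`, semi-axes `α`, `β` is the
unit circle -/
noncomputable def psi (c d : ℂ) (α β : ℝ) (w : ℂ) : ℂ :=
  ⟨((w - c) * conj d).re / α, ((w - c) * conj d).im / β⟩

noncomputable def phi (c d : ℂ) (α β : ℝ) (z : ℂ) : ℂ :=
  c + d * (((α + β) / 2 : ℝ) * z + ((α - β) / 2 : ℝ) * conj z)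

theorem phi_psi {c d : ℂ} {α β : ℝ} (hd : ‖d‖ = 1) (hα : α ≠ 0) (hβ : β ≠ 0) (w : ℂ) :
    phi c d α β (psi c d α β w) = w := by
  have h1 : (((α + β) / 2 : ℝ) * psi c d α β w + ((α - β) / 2 : ℝ) * conj (psi c d α β w)) =
      (w - c) * conj d := by
    apply Complex.ext
    · simp only [psi, Complex.add_re, Complex.re_ofReal_mul, Complex.conj_re]
      field_simp
      ring
    · simp only [psi, Complex.add_im, Complex.im_ofReal_mul, Complex.conj_im]
      field_simp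
      ring
  unfold phi
  rw [h1]
  linear_combination (w - c) * mul_conj_of_norm hd

theorem psi_phi {c d : ℂ} {α β : ℝ} (hd : ‖d‖ = 1) (hα : α ≠ 0) (hβ : β ≠ 0) (z : ℂ) :
    psi c d α β (phi c d α β z) = z := by
  have h1 : (phi c d α β z - c) * conj d =
      (((α + β) / 2 : ℝ) * z + ((α - β) / 2 : ℝ) * conj z) := by
    unfold phi
    linear_combination (((α + β) / 2 : ℝ) * z + ((α - β) / 2 : ℝ) * conj z) *
      mul_conj_of_norm hd
  unfold psi
  rw [h1]
  apply Complex.ext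
  · simp only [Complex.add_re, Complex.re_ofReal_mul, Complex.conj_re]
    field_simp
    ring
  · simp only [Complex.add_im, Complex.im_ofReal_mul, Complex.conj_im]
    field_simp
    ring

theorem norm_psi_sq (c d : ℂ) (α β : ℝ) (w : ℂ) : ‖psi c d α β w‖ ^ 2 =
    (((w - c) * conj d).re / α) ^ 2 + (((w - c) * conj d).im / β) ^ 2 := by
  rw [← Complex.normSq_eq_norm_sq, Complex.normSq_apply]
  simp only [psi]
  ring

/-- `psi` in terms of complex numbers -/
theorem psi_eq {c d : ℂ} {α β : ℝ} (hα : α ≠ 0) (hβ : β ≠ 0) (w : ℂ) :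
    (α * β : ℝ) * psi c d α β w = ((α + β) / 2 : ℝ) * ((w - c) * conj d) -
      ((α - β) / 2 : ℝ) * conj ((w - c) * conj d) := by
  apply Complex.ext
  · simp only [psi, Complex.sub_re, Complex.re_ofReal_mul, Complex.conj_re]
    field_simp
    ring
  · simp only [psi, Complex.sub_im, Complex.im_ofReal_mul, Complex.conj_im]
    field_simp
    ring

/-- `psi` is real affine -/
theorem psi_lineMap (c d : ℂ) (α β : ℝ) (w1 w2 : ℂ) (t : ℝ) :
    psi c d α β (AffineMap.lineMap w1 w2 t) =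
      psi c d α β w1 + t * (psi c d α β w2 - psi c d α β w1) := by
  rw [AffineMap.lineMap_apply]
  simp only [vsub_eq_sub, vadd_eq_add, Complex.real_smul]
  have h1 : (↑t * (w2 - w1) + w1 - c) * conj d =
      (t : ℂ) * ((w2 - c) * conj d - (w1 - c) * conj d) + (w1 - c) * conj d := by ring
  apply Complex.ext
  · simp only [psi, Complex.add_re, Complex.re_ofReal_mul, Complex.sub_re]
    rw [h1]
    simp only [Complex.add_re, Complex.re_ofReal_mul, Complex.sub_re]
    ring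
  · simp only [psi, Complex.add_im, Complex.im_ofReal_mul, Complex.sub_im]
    rw [h1]
    simp only [Complex.add_im, Complex.im_ofReal_mul, Complex.sub_im]
    ring

/-- the chord of the unit circle -/
theorem mem_chord_iff {z1 z2 z : ℂ} (h1 : ‖z1‖ = 1) (h2 : ‖z2‖ = 1) (h12 : z1 ≠ z2) :
    z + z1 * z2 * conj z = z1 + z2 ↔ ∃ t : ℝ, z = z1 + t * (z2 - z1) := by
  have k1 := mul_conj_of_norm h1
  have k2 := mul_conj_of_norm h2
  have hne : z2 - z1 ≠ 0 := sub_ne_zero.mpr h12.symm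
  constructor
  · intro h
    have hz1 := ne_zero_of_norm h1
    have hz2 := ne_zero_of_norm h2
    have hreal : conj ((z - z1) / (z2 - z1)) = (z - z1) / (z2 - z1) := by
      rw [map_div₀, map_sub, map_sub, conj_eq_inv_of_norm h1, conj_eq_inv_of_norm h2]
      have hne' : z2⁻¹ - z1⁻¹ ≠ 0 := by
        intro h0
        apply h12
        have : z2⁻¹ = z1⁻¹ := by linear_combination h0
        exact (inv_injective this).symm
      rw [div_eq_div_iff hne' hne]
      field_simp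
      linear_combination (z2 - z1) * h
    obtain ⟨t, ht⟩ := Complex.conj_eq_iff_real.mp hreal
    refine ⟨t, ?_⟩
    rw [← ht]
    field_simp
    ring
  · rintro ⟨t, rfl⟩
    rw [map_add, map_mul, map_sub, Complex.conj_ofReal]
    linear_combination (z2 - t * z2) * k1 + (t * z1) * k2

theorem mem_line_iff {c d : ℂ} {α β : ℝ} (hd : ‖d‖ = 1) (hα : α ≠ 0) (hβ : β ≠ 0) {w1 w2 : ℂ}
    (h1 : ‖psi c d α β w1‖ = 1) (h2 : ‖psi c d α β w2‖ = 1) (h12 : w1 ≠ w2) (w : ℂ) :
    w ∈ line[ℝ, w1, w2] ↔ psi c d α β w + psi c d α β w1 * psi c d α β w2 * conj (psi c d α β w) =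
      psi c d α β w1 + psi c d α β w2 := by
  have h12' : psi c d α β w1 ≠ psi c d α β w2 := by
    intro h
    apply h12
    rw [← phi_psi hd hα hβ w1, ← phi_psi hd hα hβ w2, h]
  rw [mem_chord_iff h1 h2 h12']
  constructor
  · intro h
    obtain ⟨t, ht⟩ := (mem_affineSpan_pair_iff_exists_lineMap_eq).mp h
    exact ⟨t, by rw [← ht, psi_lineMap]⟩
  · rintro ⟨t, ht⟩
    refine (mem_affineSpan_pair_iff_exists_lineMap_eq).mpr ⟨t, ?_⟩
    rw [← phi_psi hd hα hβ w, ht, ← psi_lineMap, phi_psi hd hα hβ]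

/-- the composition of the coordinate maps of two ellipses -/
theorem psi_phi' {c d c' d' : ℂ} {α β α' β' : ℝ} (hα : α ≠ 0) (hβ : β ≠ 0) (hd : ‖d‖ = 1)
    (hd' : ‖d'‖ = 1) (h' : 0 < α' * β') (hαβ : 0 < α * β) :
    ∃ c0 μ ν : ℂ, ‖μ‖ ≠ ‖ν‖ ∧ ∀ u : ℂ, psi c d α β (phi c' d' α' β' u) = c0 + μ * u + ν * conj u := by
  obtain ⟨a, ha⟩ : ∃ a : ℝ, a = (α + β) / 2 := ⟨_, rfl⟩
  obtain ⟨b, hb⟩ : ∃ b : ℝ, b = (α - β) / 2 := ⟨_, rfl⟩
  obtain ⟨a', ha'⟩ : ∃ a' : ℝ, a' = (α' + β') / 2 := ⟨_, rfl⟩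
  obtain ⟨b', hb'⟩ : ∃ b' : ℝ, b' = (α' - β') / 2 := ⟨_, rfl⟩
  obtain ⟨q, hq⟩ : ∃ q : ℝ, q = α * β := ⟨_, rfl⟩
  have hq0 : (q : ℂ) ≠ 0 := by
    rw [hq]
    exact_mod_cast mul_ne_zero hα hβ
  have hqab : q = a ^ 2 - b ^ 2 := by rw [hq, ha, hb]; ring
  have hqab' : α' * β' = a' ^ 2 - b' ^ 2 := by rw [ha', hb']; ring
  refine ⟨(a * ((c' - c) * conj d) - b * conj ((c' - c) * conj d)) / q,
    (a * (conj d * d' * a') - b * conj (conj d * d' * b')) / q,
    (a * (conj d * d' * b') - b * conj (conj d * d' * a')) / q, ?_, ?_⟩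
  · intro h
    have hn : ‖a * (conj d * d' * a') - b * conj (conj d * d' * b')‖ ^ 2 =
        ‖a * (conj d * d' * b') - b * conj (conj d * d' * a')‖ ^ 2 := by
      rw [norm_div, norm_div] at h
      have h3 : ‖(q : ℂ)‖ ≠ 0 := norm_ne_zero_iff.mpr hq0
      have h4 := (div_left_inj' h3).mp h
      rw [h4]
    have h5 : ((‖a * (conj d * d' * a') - b * conj (conj d * d' * b')‖ ^ 2 : ℝ) : ℂ) =
        ((‖a * (conj d * d' * b') - b * conj (conj d * d' * a')‖ ^ 2 : ℝ) : ℂ) := by rw [hn]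
    rw [← Complex.normSq_eq_norm_sq, ← Complex.normSq_eq_norm_sq, ← Complex.mul_conj,
      ← Complex.mul_conj] at h5
    simp only [map_sub, map_mul, Complex.conj_conj, Complex.conj_ofReal] at h5
    have k := mul_conj_of_norm hd
    have k' := mul_conj_of_norm hd'
    have h6 : ((a : ℂ) ^ 2 - b ^ 2) * (a' ^ 2 - b' ^ 2) = 0 := by
      linear_combination h5 - ((a : ℂ) ^ 2 - b ^ 2) * (a' ^ 2 - b' ^ 2) * (d' * conj d') * k -
        ((a : ℂ) ^ 2 - b ^ 2) * (a' ^ 2 - b' ^ 2) * k'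
    have h7 : (a ^ 2 - b ^ 2) * (a' ^ 2 - b' ^ 2) = 0 := by exact_mod_cast h6
    rw [← hqab, ← hqab', hq] at h7
    exact (mul_pos hαβ h').ne' h7
  · intro u
    have h1 := psi_eq (c := c) (d := d) hα hβ (phi c' d' α' β' u)
    rw [← ha, ← hb, ← hq] at h1
    have h2 : (phi c' d' α' β' u - c) * conj d =
        (c' - c) * conj d + conj d * d' * a' * u + conj d * d' * b' * conj u := by
      unfold phi
      rw [← ha', ← hb']
      ring
    rw [h2] at h1
    have h3 : psi c d α β (phi c' d' α' β' u) = (q : ℂ) * psi c d α β (phi c' d' α' β' u) / q := by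
      field_simp
    rw [h3, h1]
    simp only [map_add, map_mul, Complex.conj_conj]
    field_simp
    ring

end Q184.Poncelet
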